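import Pool.Agent.Helper92.LW.Tools

/-!
# LW, W5 (MP_fb29e9_nt): the limit law of the normalized error
-/

open MeasureTheory Real Set Filter Topology CompactlySupported

set_option autoImplicit false

namespace Pool.Agent.Helper77.LW

open Pool.Agent.Helper22.AE
open Pool.Agent.Helper22.AC (cntc)
open Pool.Agent.Helper92.LW

/-- continuous functions of polynomial growth -/
private def PG (φ : ℝ → ℝ) : Prop := Continuous φ ∧ ∃ (A : ℝ) (q : ℕ), ∀ y, |φ y| ≤ A * (1 + |y|) ^ q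

private lemma A_nonneg {φ : ℝ → ℝ} {A : ℝ} {q : ℕ} (h : ∀ y, |φ y| ≤ A * (1 + |y|) ^ q) : 0 ≤ A := by
  have h0 := h 0
  rw [abs_zero, add_zero, one_pow, mul_one] at h0
  exact (abs_nonneg _).trans h0

private lemma pg_bdd {φ : ℝ → ℝ} (hφ : Continuous φ) {B : ℝ} (h : ∀ y, |φ y| ≤ B) : PG φ :=
  ⟨hφ, B, 0, fun y => by rw [pow_zero, mul_one]; exact h y⟩

private lemma pg_add {φ ψ : ℝ → ℝ} (h1 : PG φ) (h2 : PG ψ) : PG (fun y => φ y + ψ y) := by
  obtain ⟨c1, A, q, hA⟩ := h1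
  obtain ⟨c2, B, r, hB⟩ := h2
  refine ⟨c1.add c2, A + B, q + r, fun y => ?_⟩
  have hy : (1 : ℝ) ≤ 1 + |y| := by linarith [abs_nonneg y]
  have e1 : A * (1 + |y|) ^ q ≤ A * (1 + |y|) ^ (q + r) :=
    mul_le_mul_of_nonneg_left (pow_le_pow_right₀ hy (by omega)) (A_nonneg hA)
  have e2 : B * (1 + |y|) ^ r ≤ B * (1 + |y|) ^ (q + r) :=
    mul_le_mul_of_nonneg_left (pow_le_pow_right₀ hy (by omega)) (A_nonneg hB)
  have := abs_add_le (φ y) (ψ y)
  have := hA y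
  have := hB y
  rw [add_mul]
  linarith

private lemma pg_mul {φ ψ : ℝ → ℝ} (h1 : PG φ) (h2 : PG ψ) : PG (fun y => φ y * ψ y) := by
  obtain ⟨c1, A, q, hA⟩ := h1
  obtain ⟨c2, B, r, hB⟩ := h2
  refine ⟨c1.mul c2, A * B, q + r, fun y => ?_⟩
  rw [abs_mul, pow_add]
  calc |φ y| * |ψ y| ≤ (A * (1 + |y|) ^ q) * (B * (1 + |y|) ^ r) :=
        mul_le_mul (hA y) (hB y) (abs_nonneg _) (mul_nonneg (A_nonneg hA) (by positivity))
    _ = A * B * ((1 + |y|) ^ q * (1 + |y|) ^ r) := by ring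

private lemma pg_const (a : ℝ) : PG (fun _ => a) := pg_bdd continuous_const (B := |a|) fun _ => le_rfl

private lemma pg_abs {φ : ℝ → ℝ} (h : PG φ) : PG (fun y => |φ y|) := by
  obtain ⟨c, A, q, hA⟩ := h
  exact ⟨c.abs, A, q, fun y => by rw [abs_abs]; exact hA y⟩

private lemma pg_sq : PG (fun y => y ^ 2) := by
  refine ⟨by fun_prop, 1, 2, fun y => ?_⟩
  rw [abs_pow, one_mul]
  exact pow_le_pow_left₀ (abs_nonneg y) (by linarith) 2

private lemma pg_pow (q : ℕ) : PG (fun y => (1 + |y|) ^ q) := by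
  refine ⟨by fun_prop, 1, q, fun y => ?_⟩
  rw [one_mul, abs_of_nonneg (by positivity)]

private lemma c_nonneg (K : ℕ) (y : ℝ) : 0 ≤ cut K y := le_max_left _ _

private lemma c_le (K : ℕ) (y : ℝ) : cut K y ≤ 1 := max_le zero_le_one (min_le_left _ _)

private lemma c_one {K : ℕ} {y : ℝ} (h : |y| ≤ (K : ℝ) + 1) : cut K y = 1 := by
  have hK : (0 : ℝ) < (K : ℝ) + 1 := by positivity
  have h1 : |y| / ((K : ℝ) + 1) ≤ 1 := (div_le_one hK).2 h
  unfold cut
  rw [min_eq_left (by linarith), max_eq_right zero_le_one]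

private lemma c_zero {K : ℕ} {y : ℝ} (h : 2 * ((K : ℝ) + 1) ≤ |y|) : cut K y = 0 := by
  have hK : (0 : ℝ) < (K : ℝ) + 1 := by positivity
  have h1 : 2 ≤ |y| / ((K : ℝ) + 1) := (le_div_iff₀ hK).2 h
  unfold cut
  rw [min_eq_right (by linarith), max_eq_left (by linarith)]

private lemma c_cont (K : ℕ) : Continuous (cut K) := by
  unfold cut
  fun_prop

private lemma c_supp (K : ℕ) : HasCompactSupport (cut K) := by
  refine HasCompactSupport.intro (isCompact_Icc : IsCompact (Icc (-(2 * ((K : ℝ) + 1))) (2 * ((K : ℝ) + 1)))) fun y hy => ?_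
  refine c_zero ?_
  by_contra h
  push Not at h
  exact hy (abs_le.1 h.le)

private lemma c_mono (y : ℝ) : Monotone fun K : ℕ => cut K y := by
  intro K K' h
  have hK : (0 : ℝ) < (K : ℝ) + 1 := by positivity
  have h' : (K : ℝ) + 1 ≤ (K' : ℝ) + 1 := by
    have : (K : ℝ) ≤ K' := by exact_mod_cast h
    linarith
  have h1 : |y| / ((K' : ℝ) + 1) ≤ |y| / ((K : ℝ) + 1) := div_le_div_of_nonneg_left (abs_nonneg y) hK h'
  change cut K y ≤ cut K' y
  unfold cut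
  exact max_le_max le_rfl (min_le_min le_rfl (by linarith))

private lemma c_pg (K : ℕ) : PG (cut K) := pg_bdd (c_cont K) (B := 1) fun y => by
  rw [abs_of_nonneg (c_nonneg K y)]
  exact c_le K y

private lemma one_sub_c (K : ℕ) (y : ℝ) : 1 - cut K y ≤ (((K : ℝ) + 1) ^ 2)⁻¹ * y ^ 2 := by
  have hK : (0 : ℝ) < (K : ℝ) + 1 := by positivity
  by_cases h : |y| ≤ (K : ℝ) + 1
  · rw [c_one h, sub_self]
    positivity
  · push Not at h
    have h1 : 1 ≤ (((K : ℝ) + 1) ^ 2)⁻¹ * y ^ 2 := by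
      rw [inv_mul_eq_div, one_le_div (by positivity), ← sq_abs y]
      exact pow_le_pow_left₀ hK.le h.le 2
    linarith [c_nonneg K y]

/-- a positive normalized functional on the continuous functions of polynomial growth is given by a probability measure -/
private theorem exists_of {m : (ℝ → ℝ) → ℝ} (hadd : ∀ φ ψ, PG φ → PG ψ → m (fun y => φ y + ψ y) = m φ + m ψ)
    (hmul : ∀ (a : ℝ) φ, PG φ → m (fun y => a * φ y) = a * m φ)
    (hmono : ∀ φ ψ, PG φ → PG ψ → (∀ y, φ y ≤ ψ y) → m φ ≤ m ψ)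
    (hone : m (fun _ => 1) = 1) :
    ∃ ν : Measure ℝ, IsProbabilityMeasure ν ∧ ∀ φ, PG φ → Integrable φ ν ∧ ∫ y, φ y ∂ν = m φ := by
  have hzero : m (fun _ => 0) = 0 := by
    have h := hmul 0 (fun _ => 1) (pg_const 1)
    simpa using h
  have pgc : ∀ f : C_c(ℝ, ℝ), PG f := by
    intro f
    obtain ⟨C, hC⟩ := f.hasCompactSupport.exists_bound_of_continuous f.continuous
    exact pg_bdd f.continuous hC
  let Λ₀ : C_c(ℝ, ℝ) →ₗ[ℝ] ℝ :=
    { toFun := fun f => m f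
      map_add' := fun f g => hadd f g (pgc f) (pgc g)
      map_smul' := fun a f => hmul a f (pgc f) }
  let Λ : C_c(ℝ, ℝ) →ₚ[ℝ] ℝ := PositiveLinearMap.mk₀ Λ₀ fun f hf => by
    change 0 ≤ m f
    rw [← hzero]
    exact hmono _ _ (pg_const 0) (pgc f) fun y => hf y
  set ν : Measure ℝ := RealRMK.rieszMeasure Λ with hν
  have hνr : ν.Regular := RealRMK.regular_rieszMeasure Λ
  have hint : ∀ f : C_c(ℝ, ℝ), ∫ y, f y ∂ν = m f := fun f => RealRMK.integral_rieszMeasure Λ f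
  -- the cut functions
  have hK : ∀ φ, PG φ → ∀ K : ℕ, Integrable (fun y => φ y * cut K y) ν ∧
      ∫ y, φ y * cut K y ∂ν = m (fun y => φ y * cut K y) := by
    intro φ hφ K
    have hc : Continuous (fun y => φ y * cut K y) := hφ.1.mul (c_cont K)
    have hs : HasCompactSupport (fun y => φ y * cut K y) := (c_supp K).mul_left
    refine ⟨hc.integrable_of_hasCompactSupport hs, ?_⟩
    exact hint ⟨⟨fun y => φ y * cut K y, hc⟩, hs⟩
  have happ : ∀ φ, PG φ → Tendsto (fun K : ℕ => m (fun y => φ y * cut K y)) atTop (𝓝 (m φ)) := by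
    intro φ hφ
    have hB : PG (fun y => |φ y| * y ^ 2) := pg_mul (pg_abs hφ) pg_sq
    have hpg : ∀ K : ℕ, PG (fun y => φ y * cut K y) := fun K => pg_mul hφ (c_pg K)
    have hpg2 : ∀ K : ℕ, PG (fun y => (((K : ℝ) + 1) ^ 2)⁻¹ * (|φ y| * y ^ 2)) := fun K => pg_mul (pg_const _) hB
    have key : ∀ K : ℕ, |m (fun y => φ y * cut K y) - m φ| ≤ (((K : ℝ) + 1) ^ 2)⁻¹ * m (fun y => |φ y| * y ^ 2) := by
      intro K
      have d : ∀ y, |φ y * cut K y - φ y| ≤ (((K : ℝ) + 1) ^ 2)⁻¹ * (|φ y| * y ^ 2) := by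
        intro y
        have e : φ y * cut K y - φ y = -(φ y * (1 - cut K y)) := by ring
        rw [e, abs_neg, abs_mul, abs_of_nonneg (by linarith [c_le K y] : 0 ≤ 1 - cut K y)]
        calc |φ y| * (1 - cut K y) ≤ |φ y| * ((((K : ℝ) + 1) ^ 2)⁻¹ * y ^ 2) :=
              mul_le_mul_of_nonneg_left (one_sub_c K y) (abs_nonneg _)
          _ = (((K : ℝ) + 1) ^ 2)⁻¹ * (|φ y| * y ^ 2) := by ring
      have h1 := hmono _ _ (hpg K) (pg_add hφ (hpg2 K)) fun y => by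
        have := (abs_le.1 (d y)).2
        linarith
      have h2 := hmono _ _ hφ (pg_add (hpg K) (hpg2 K)) fun y => by
        have := (abs_le.1 (d y)).1
        linarith
      rw [hadd _ _ hφ (hpg2 K), hmul _ _ hB] at h1
      rw [hadd _ _ (hpg K) (hpg2 K), hmul _ _ hB] at h2
      rw [abs_le]
      constructor <;> linarith
    rw [tendsto_iff_dist_tendsto_zero]
    refine squeeze_zero (g := fun K : ℕ => (((K : ℝ) + 1) ^ 2)⁻¹ * m (fun y => |φ y| * y ^ 2)) (fun _ => dist_nonneg)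
      (fun K => by rw [Real.dist_eq]; exact key K) ?_
    have h1 : Tendsto (fun K : ℕ => (((K : ℝ) + 1) ^ 2)⁻¹) atTop (𝓝 0) := by
      have h2 : Tendsto (fun K : ℕ => (K : ℝ) + 1) atTop atTop :=
        tendsto_atTop_add_const_right _ _ tendsto_natCast_atTop_atTop
      exact ((tendsto_pow_atTop (n := 2) (by norm_num)).comp h2).inv_tendsto_atTop
    simpa using h1.mul_const (m (fun y => |φ y| * y ^ 2))
  have hlin : ∀ g, PG g → (∀ y, 0 ≤ g y) → ∫⁻ y, ENNReal.ofReal (g y) ∂ν = ENNReal.ofReal (m g) := by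
    intro g hg h0
    have h1 : Tendsto (fun K : ℕ => ∫⁻ y, ENNReal.ofReal (g y * cut K y) ∂ν) atTop (𝓝 (∫⁻ y, ENNReal.ofReal (g y) ∂ν)) := by
      refine lintegral_tendsto_of_tendsto_of_monotone
        (fun K => (ENNReal.measurable_ofReal.comp (hg.1.mul (c_cont K)).measurable).aemeasurable)
        (ae_of_all _ fun y => ?_) (ae_of_all _ fun y => ?_)
      · intro K K' h
        exact ENNReal.ofReal_le_ofReal (mul_le_mul_of_nonneg_left (c_mono y h) (h0 y))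
      · refine tendsto_const_nhds.congr' ?_
        obtain ⟨n, hn⟩ := exists_nat_ge |y|
        filter_upwards [eventually_ge_atTop n] with K hK
        have : (n : ℝ) ≤ K := by exact_mod_cast hK
        rw [c_one (K := K) (y := y) (by linarith), mul_one]
    have h2 : ∀ K : ℕ, ∫⁻ y, ENNReal.ofReal (g y * cut K y) ∂ν = ENNReal.ofReal (m (fun y => g y * cut K y)) := by
      intro K
      rw [← (hK g hg K).2, ofReal_integral_eq_lintegral_ofReal (hK g hg K).1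
        (ae_of_all _ fun y => mul_nonneg (h0 y) (c_nonneg K y))]
    simp only [h2] at h1
    exact tendsto_nhds_unique h1 ((ENNReal.continuous_ofReal.tendsto _).comp (happ g hg))
  have hpos : ∀ g, PG g → (∀ y, 0 ≤ g y) → Integrable g ν ∧ ∫ y, g y ∂ν = m g := by
    intro g hg h0
    have hm0 : 0 ≤ m g := by
      rw [← hzero]
      exact hmono _ _ (pg_const 0) hg h0
    refine ⟨⟨hg.1.aestronglyMeasurable, ?_⟩, ?_⟩
    · rw [hasFiniteIntegral_iff_ofReal (ae_of_all _ h0), hlin g hg h0]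
      exact ENNReal.ofReal_lt_top
    · rw [integral_eq_lintegral_of_nonneg_ae (ae_of_all _ h0) hg.1.aestronglyMeasurable, hlin g hg h0,
        ENNReal.toReal_ofReal hm0]
  refine ⟨ν, ⟨?_⟩, fun φ hφ => ?_⟩
  · have h := hlin (fun _ => 1) (pg_const 1) fun _ => zero_le_one
    rw [hone, ENNReal.ofReal_one, lintegral_one] at h
    exact h
  · obtain ⟨c, A, q, hA⟩ := hφ
    have hg : PG (fun y => A * (1 + |y|) ^ q) := pg_mul (pg_const A) (pg_pow q)
    have hg0 : ∀ y, 0 ≤ A * (1 + |y|) ^ q := fun y => mul_nonneg (A_nonneg hA) (by positivity)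
    have hφg : PG (fun y => φ y + A * (1 + |y|) ^ q) := pg_add ⟨c, A, q, hA⟩ hg
    obtain ⟨i1, e1⟩ := hpos _ hg hg0
    obtain ⟨i2, e2⟩ := hpos _ hφg fun y => by linarith [(abs_le.1 (hA y)).1]
    have i3 : Integrable φ ν := by
      have := i2.sub i1
      refine this.congr (ae_of_all _ fun y => ?_)
      simp
    refine ⟨i3, ?_⟩
    rw [hadd _ _ ⟨c, A, q, hA⟩ hg, integral_add i3 i1, e1] at e2
    linarith

theorem exists_law {H : ℝ → ℝ} (hH : ContDiff ℝ 2 H) (hp : Function.Periodic H (2 * π))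
    (h : ∀ φ : ℝ → ℝ, Continuous φ → ∀ (A : ℝ) (q : ℕ), (∀ y, |φ y| ≤ A * (1 + |y|) ^ q) → LimF H φ) :
    ∃ ν : Measure ℝ, IsProbabilityMeasure ν ∧ ∀ φ : ℝ → ℝ, Continuous φ → ∀ (A : ℝ) (q : ℕ), (∀ y, |φ y| ≤ A * (1 + |y|) ^ q) →
      Integrable φ ν ∧ ∀ ε : ℝ, 0 < ε → ∃ X₀ : ℝ, 1 ≤ X₀ ∧ ∀ X : ℝ, X₀ ≤ X → ∀ c : ℝ × ℝ,
        |X⁻¹ * (∫ R in Icc X (2 * X), φ ((cntc H c R - area H * R ^ 2) / sqrt R)) - ∫ y, φ y ∂ν| ≤ ε := by
  classical
  have hL : ∀ φ, PG φ → LimF H φ := fun φ hφ => by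
    obtain ⟨c, A, q, hA⟩ := hφ
    exact h φ c A q hA
  let m : (ℝ → ℝ) → ℝ := fun φ => if hφ : PG φ then (hL φ hφ).choose else 0
  have hm : ∀ φ, PG φ → ∀ ε : ℝ, 0 < ε → ∃ X₀ : ℝ, 1 ≤ X₀ ∧ ∀ X : ℝ, X₀ ≤ X → ∀ c : ℝ × ℝ,
      |X⁻¹ * (∫ R in Icc X (2 * X), φ ((cntc H c R - area H * R ^ 2) / sqrt R)) - m φ| ≤ ε := by
    intro φ hφ
    have e : m φ = (hL φ hφ).choose := dif_pos hφ
    rw [e]
    exact (hL φ hφ).choose_spec
  have ht : ∀ φ, PG φ → Tendsto (fun X : ℝ => X⁻¹ * (∫ R in Icc X (2 * X), φ ((cntc H 0 R - area H * R ^ 2) / sqrt R)))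
      atTop (𝓝 (m φ)) := by
    intro φ hφ
    rw [Metric.tendsto_atTop]
    intro ε hε
    obtain ⟨X₀, -, h1⟩ := hm φ hφ (ε / 2) (by positivity)
    refine ⟨X₀, fun X hX => ?_⟩
    rw [Real.dist_eq]
    exact (h1 X hX 0).trans_lt (by linarith)
  have hbm : ∀ φ, PG φ → ∀ X : ℝ, 1 ≤ X → BM X (fun R => φ ((cntc H 0 R - area H * R ^ 2) / sqrt R)) :=
    fun φ hφ X hX => (u_bm hH.continuous hp 0 hX).comp hφ.1
  suffices key : ∃ ν : Measure ℝ, IsProbabilityMeasure ν ∧ ∀ φ, PG φ → Integrable φ ν ∧ ∫ y, φ y ∂ν = m φ by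
    obtain ⟨ν, hν, hνm⟩ := key
    refine ⟨ν, hν, fun φ hφ A q hA => ?_⟩
    obtain ⟨h1, h2⟩ := hνm φ ⟨hφ, A, q, hA⟩
    refine ⟨h1, ?_⟩
    rw [h2]
    exact hm φ ⟨hφ, A, q, hA⟩
  refine exists_of (m := m) ?_ ?_ ?_ ?_
  · intro φ ψ h1 h2
    refine tendsto_nhds_unique (ht _ (pg_add h1 h2)) (((ht φ h1).add (ht ψ h2)).congr' ?_)
    filter_upwards [eventually_ge_atTop 1] with X hX
    rw [integral_add (hbm φ h1 X hX).int (hbm ψ h2 X hX).int, mul_add]
  · intro a φ h1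
    refine tendsto_nhds_unique (ht _ (pg_mul (pg_const a) h1)) (((ht φ h1).const_mul a).congr' ?_)
    filter_upwards [eventually_ge_atTop 1] with X hX
    rw [integral_const_mul]
    ring
  · intro φ ψ h1 h2 h3
    refine le_of_tendsto_of_tendsto (ht φ h1) (ht ψ h2) ?_
    filter_upwards [eventually_ge_atTop 1] with X hX
    exact mean_mono hX (hbm φ h1 X hX) (hbm ψ h2 X hX) fun R _ => h3 _
  · refine tendsto_nhds_unique (ht _ (pg_const 1)) (tendsto_const_nhds.congr' ?_)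
    filter_upwards [eventually_ge_atTop 1] with X hX
    rw [mean_const hX]

end Pool.Agent.Helper77.LW
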