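import Pool.Agent.Helper92.LW.Defs
import Pool.Agent.Helper60.MM.M8

/-!
# LW, W2 (MP_fb29e9_nt): from the countable family to all test functions of polynomial growth
-/

open MeasureTheory Real Set Filter Topology

set_option autoImplicit false

namespace Pool.Agent.Helper77.LW

open Pool.Agent.Helper22.AE
open Pool.Agent.Helper22.AC (cntc)
open Pool.Agent.Helper92.LW
open Pool.Agent.Helper92.MM (mom)

/-- the normalized error -/
private noncomputable def En (H : ℝ → ℝ) (c : ℝ × ℝ) (R : ℝ) : ℝ := (cntc H c R - area H * R ^ 2) / sqrt R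

private lemma En_meas (H : ℝ → ℝ) (c : ℝ × ℝ) : Measurable (En H c) := by
  unfold En
  exact ((Pool.Agent.Helper60.MM.cntc_radius_meas H c).sub (by fun_prop)).div (by fun_prop)

private lemma int_bdd {H : ℝ → ℝ} {c : ℝ × ℝ} {X : ℝ} {ψ : ℝ → ℝ} (hψ : Continuous ψ) {B : ℝ} (hB : ∀ y, |ψ y| ≤ B) :
    IntegrableOn (fun R => ψ (En H c R)) (Icc X (2 * X)) := by
  refine Measure.integrableOn_of_bounded (M := B) ?_ ?_ ?_
  · exact measure_Icc_lt_top.ne
  · exact (hψ.measurable.comp (En_meas H c)).aestronglyMeasurable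
  · exact ae_of_all _ fun R => by
      rw [Real.norm_eq_abs]
      exact hB _

private lemma mom_le {H : ℝ → ℝ} {J : ℕ} {C X : ℝ} (hX : 1 ≤ X) (h : mom J H X ≤ ENNReal.ofReal (C * X ^ (1 + J)))
    (c : ℝ × ℝ) :
    ∫⁻ R in Icc X (2 * X), ENNReal.ofReal (|En H c R| ^ (2 * J)) ≤ ENNReal.ofReal (C * X) := by
  have hX0 : 0 < X := by linarith
  have h1 : ∀ R ∈ Icc X (2 * X), ENNReal.ofReal (|En H c R| ^ (2 * J)) ≤
      ENNReal.ofReal ((X ^ J)⁻¹) * ⨆ c : ℝ × ℝ, ENNReal.ofReal (|cntc H c R - area H * R ^ 2| ^ (2 * J)) := by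
    intro R hR
    have hR0 : 0 < R := hX0.trans_le hR.1
    refine le_trans ?_ (mul_le_mul_right (le_iSup (fun c : ℝ × ℝ =>
      ENNReal.ofReal (|cntc H c R - area H * R ^ 2| ^ (2 * J))) c) _)
    rw [← ENNReal.ofReal_mul (by positivity)]
    refine ENNReal.ofReal_le_ofReal ?_
    unfold En
    rw [abs_div, div_pow, abs_of_nonneg (sqrt_nonneg R), pow_mul (sqrt R), sq_sqrt hR0.le, div_eq_inv_mul]
    have h2 : (R ^ J)⁻¹ ≤ (X ^ J)⁻¹ := by
      apply inv_anti₀ (by positivity)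
      exact pow_le_pow_left₀ hX0.le hR.1 J
    exact mul_le_mul_of_nonneg_right h2 (by positivity)
  calc ∫⁻ R in Icc X (2 * X), ENNReal.ofReal (|En H c R| ^ (2 * J))
      ≤ ∫⁻ R in Icc X (2 * X), ENNReal.ofReal ((X ^ J)⁻¹) *
          ⨆ c : ℝ × ℝ, ENNReal.ofReal (|cntc H c R - area H * R ^ 2| ^ (2 * J)) := setLIntegral_mono' measurableSet_Icc h1
    _ = ENNReal.ofReal ((X ^ J)⁻¹) * mom J H X := lintegral_const_mul' _ _ ENNReal.ofReal_ne_top
    _ ≤ ENNReal.ofReal ((X ^ J)⁻¹) * ENNReal.ofReal (C * X ^ (1 + J)) := mul_le_mul_right h _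
    _ = ENNReal.ofReal (C * X) := by
        rw [← ENNReal.ofReal_mul (by positivity)]
        congr 1
        have : X ^ J ≠ 0 := by positivity
        rw [pow_add, pow_one]
        field_simp

private lemma mom_int {H : ℝ → ℝ} {J : ℕ} {C X : ℝ} (hX : 1 ≤ X) (h : mom J H X ≤ ENNReal.ofReal (C * X ^ (1 + J)))
    (c : ℝ × ℝ) : IntegrableOn (fun R => |En H c R| ^ (2 * J)) (Icc X (2 * X)) ∧
      ∫ R in Icc X (2 * X), |En H c R| ^ (2 * J) ≤ |C| * X := by
  have hX0 : 0 < X := by linarith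
  have h1 := mom_le hX h c
  have hm : AEStronglyMeasurable (fun R => |En H c R| ^ (2 * J)) (volume.restrict (Icc X (2 * X))) :=
    ((En_meas H c).abs.pow_const _).aestronglyMeasurable
  have h0 : 0 ≤ᵐ[volume.restrict (Icc X (2 * X))] fun R => |En H c R| ^ (2 * J) := ae_of_all _ fun R => by positivity
  refine ⟨⟨hm, ?_⟩, ?_⟩
  · rw [hasFiniteIntegral_iff_ofReal h0]
    exact h1.trans_lt ENNReal.ofReal_lt_top
  · rw [integral_eq_lintegral_of_nonneg_ae h0 hm]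
    refine (ENNReal.toReal_mono ENNReal.ofReal_ne_top (h1.trans (ENNReal.ofReal_le_ofReal
      (mul_le_mul_of_nonneg_right (le_abs_self C) hX0.le)))).trans ?_
    rw [ENNReal.toReal_ofReal (by positivity)]

/-- a uniform limit of functions with `LimF` -/
private lemma limF_of_approx {H φ : ℝ → ℝ} (h : ∀ ε : ℝ, 0 < ε → ∃ ψ : ℝ → ℝ, LimF H ψ ∧ ∀ X : ℝ, 1 ≤ X → ∀ c : ℝ × ℝ,
    |X⁻¹ * (∫ R in Icc X (2 * X), φ (En H c R)) - X⁻¹ * (∫ R in Icc X (2 * X), ψ (En H c R))| ≤ ε) : LimF H φ := by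
  set I : ℝ × (ℝ × ℝ) → ℝ := fun p => p.1⁻¹ * (∫ R in Icc p.1 (2 * p.1), φ (En H p.2 R)) with hI
  set F : Filter (ℝ × (ℝ × ℝ)) := comap Prod.fst atTop with hF
  have key : ∀ ε : ℝ, 0 < ε → ∃ (m X₀ : ℝ), 1 ≤ X₀ ∧ ∀ X : ℝ, X₀ ≤ X → ∀ c : ℝ × ℝ, |I (X, c) - m| ≤ ε := by
    intro ε hε
    obtain ⟨ψ, ⟨m, hm⟩, hψ⟩ := h (ε / 2) (by positivity)
    obtain ⟨X₀, h1, h2⟩ := hm (ε / 2) (by positivity)
    refine ⟨m, X₀, h1, fun X hX c => ?_⟩
    have h3 := hψ X (h1.trans hX) c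
    have h4 := h2 X hX c
    have h5 : I (X, c) - m = (X⁻¹ * (∫ R in Icc X (2 * X), φ (En H c R)) - X⁻¹ * (∫ R in Icc X (2 * X), ψ (En H c R))) +
        (X⁻¹ * (∫ R in Icc X (2 * X), ψ ((cntc H c R - area H * R ^ 2) / sqrt R)) - m) := by
      simp only [hI, En]
      ring
    rw [h5]
    refine (abs_add_le _ _).trans ?_
    linarith
  have hmem : ∀ X₀ : ℝ, {p : ℝ × (ℝ × ℝ) | X₀ ≤ p.1} ∈ F := fun X₀ =>
    ⟨Ici X₀, Ici_mem_atTop X₀, fun p hp => hp⟩
  have hFn : F.NeBot := by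
    rw [hF]
    exact NeBot.comap_of_surj inferInstance Prod.fst_surjective
  have hc : Cauchy (map I F) := by
    rw [Metric.cauchy_iff]
    refine ⟨hFn.map I, fun ε hε => ?_⟩
    obtain ⟨m, X₀, -, h2⟩ := key (ε / 3) (by positivity)
    refine ⟨I '' {p | X₀ ≤ p.1}, image_mem_map (hmem X₀), ?_⟩
    rintro _ ⟨p, hp, rfl⟩ _ ⟨q, hq, rfl⟩
    have h3 := h2 p.1 hp p.2
    have h4 := h2 q.1 hq q.2
    rw [Real.dist_eq]
    have h5 : I p - I q = (I (p.1, p.2) - m) - (I (q.1, q.2) - m) := by simp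
    rw [h5]
    refine (abs_sub _ _).trans_lt ?_
    linarith
  obtain ⟨m, hm⟩ := CompleteSpace.complete hc
  refine ⟨m, fun ε hε => ?_⟩
  obtain ⟨m', X₀, h1, h2⟩ := key (ε / 3) (by positivity)
  have h3 : ∃ p : ℝ × (ℝ × ℝ), X₀ ≤ p.1 ∧ |I p - m| ≤ ε / 3 := by
    have h4 : ∀ᶠ p in F, |I p - m| < ε / 3 := by
      have := hm (Metric.ball_mem_nhds m (show 0 < ε / 3 by positivity))
      filter_upwards [this] with p hp
      simpa [Metric.mem_ball, Real.dist_eq] using hp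
    obtain ⟨p, hp1, hp2⟩ := (h4.and (hmem X₀)).exists
    exact ⟨p, hp2, hp1.le⟩
  obtain ⟨p, hp, hp'⟩ := h3
  refine ⟨X₀, h1, fun X hX c => ?_⟩
  have h5 := h2 X hX c
  have h6 := h2 p.1 hp p.2
  have h7 : X⁻¹ * (∫ R in Icc X (2 * X), φ ((cntc H c R - area H * R ^ 2) / sqrt R)) - m =
      (I (X, c) - m') - (I (p.1, p.2) - m') + (I p - m) := by
    simp only [hI, En]
    ring
  rw [h7]
  refine (abs_add_le _ _).trans ?_
  have := abs_sub (I (X, c) - m') (I (p.1, p.2) - m')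
  linarith

private def Good (H ψ : ℝ → ℝ) : Prop := LimF H ψ ∧ Continuous ψ ∧ ∃ B : ℝ, ∀ y, |ψ y| ≤ B

private lemma Good.zero (H : ℝ → ℝ) : Good H (fun _ => 0) := by
  refine ⟨⟨0, fun ε hε => ⟨1, le_refl 1, fun X _ c => ?_⟩⟩, continuous_const, 0, fun y => by simp⟩
  simpa using hε.le

private lemma Good.add {H ψ₁ ψ₂ : ℝ → ℝ} (h1 : Good H ψ₁) (h2 : Good H ψ₂) : Good H (fun y => ψ₁ y + ψ₂ y) := by
  obtain ⟨⟨m1, l1⟩, c1, B1, b1⟩ := h1
  obtain ⟨⟨m2, l2⟩, c2, B2, b2⟩ := h2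
  refine ⟨⟨m1 + m2, fun ε hε => ?_⟩, c1.add c2, B1 + B2, fun y => (abs_add_le _ _).trans (add_le_add (b1 y) (b2 y))⟩
  obtain ⟨X1, h1, h1'⟩ := l1 (ε / 2) (by positivity)
  obtain ⟨X2, h2, h2'⟩ := l2 (ε / 2) (by positivity)
  refine ⟨max X1 X2, h1.trans (le_max_left _ _), fun X hX c => ?_⟩
  have i1 := int_bdd (H := H) (c := c) (X := X) c1 b1
  have i2 := int_bdd (H := H) (c := c) (X := X) c2 b2
  have e1 : (∫ R in Icc X (2 * X), (ψ₁ ((cntc H c R - area H * R ^ 2) / sqrt R) + ψ₂ ((cntc H c R - area H * R ^ 2) / sqrt R))) =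
      (∫ R in Icc X (2 * X), ψ₁ ((cntc H c R - area H * R ^ 2) / sqrt R)) +
      ∫ R in Icc X (2 * X), ψ₂ ((cntc H c R - area H * R ^ 2) / sqrt R) := integral_add i1 i2
  have a1 := h1' X ((le_max_left _ _).trans hX) c
  have a2 := h2' X ((le_max_right _ _).trans hX) c
  simp only [e1]
  have e2 : ∀ a b : ℝ, X⁻¹ * (a + b) - (m1 + m2) = (X⁻¹ * a - m1) + (X⁻¹ * b - m2) := fun a b => by ring
  rw [e2]
  refine (abs_add_le _ _).trans ?_
  linarith

private lemma Good.mul {H ψ : ℝ → ℝ} (a : ℝ) (h : Good H ψ) : Good H (fun y => a * ψ y) := by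
  obtain ⟨⟨m, l⟩, c1, B, b⟩ := h
  refine ⟨⟨a * m, fun ε hε => ?_⟩, continuous_const.mul c1, |a| * B, fun y => ?_⟩
  · obtain ⟨X1, h1, h1'⟩ := l (ε / (|a| + 1)) (by positivity)
    refine ⟨X1, h1, fun X hX c => ?_⟩
    have e1 : (∫ R in Icc X (2 * X), a * ψ ((cntc H c R - area H * R ^ 2) / sqrt R)) =
        a * ∫ R in Icc X (2 * X), ψ ((cntc H c R - area H * R ^ 2) / sqrt R) := integral_const_mul _ _
    have a1 := h1' X hX c
    rw [e1]
    have e2 : ∀ b : ℝ, X⁻¹ * (a * b) - a * m = a * (X⁻¹ * b - m) := fun b => by ring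
    rw [e2, abs_mul]
    calc |a| * |X⁻¹ * (∫ R in Icc X (2 * X), ψ ((cntc H c R - area H * R ^ 2) / sqrt R)) - m|
        ≤ |a| * (ε / (|a| + 1)) := mul_le_mul_of_nonneg_left a1 (abs_nonneg a)
      _ ≤ (|a| + 1) * (ε / (|a| + 1)) := by gcongr; linarith
      _ = ε := by field_simp
  · rw [abs_mul]
    exact mul_le_mul_of_nonneg_left (b y) (abs_nonneg a)

private lemma Good.sum {H : ℝ → ℝ} (s : Finset ℕ) (a : ℕ → ℝ) (f : ℕ → ℝ → ℝ) (h : ∀ j, Good H (f j)) :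
    Good H (fun y => ∑ j ∈ s, a j * f j y) := by
  classical
  induction s using Finset.induction_on with
  | empty => simpa using Good.zero H
  | insert j s hj ih =>
    have := ((h j).mul (a j)).add ih
    simpa only [Finset.sum_insert hj] using this

private lemma cut_nonneg (K : ℕ) (y : ℝ) : 0 ≤ cut K y := le_max_left _ _

private lemma cut_le (K : ℕ) (y : ℝ) : cut K y ≤ 1 := max_le zero_le_one (min_le_left _ _)

private lemma cut_eq_one {K : ℕ} {y : ℝ} (h : |y| ≤ (K : ℝ) + 1) : cut K y = 1 := by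
  have hK : (0 : ℝ) < (K : ℝ) + 1 := by positivity
  have h1 : |y| / ((K : ℝ) + 1) ≤ 1 := (div_le_one hK).2 h
  unfold cut
  rw [min_eq_left (by linarith), max_eq_right zero_le_one]

private lemma cut_eq_zero {K : ℕ} {y : ℝ} (h : 2 * ((K : ℝ) + 1) ≤ |y|) : cut K y = 0 := by
  have hK : (0 : ℝ) < (K : ℝ) + 1 := by positivity
  have h1 : 2 ≤ |y| / ((K : ℝ) + 1) := (le_div_iff₀ hK).2 h
  unfold cut
  rw [min_eq_right (by linarith), max_eq_left (by linarith)]

private lemma cut_cont (K : ℕ) : Continuous (cut K) := by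
  unfold cut
  fun_prop

private lemma fjk_good {H : ℝ → ℝ} (hlaw : ∀ j K : ℕ, LimF H (fjk j K)) (j K : ℕ) : Good H (fjk j K) := by
  refine ⟨hlaw j K, ?_, (2 * ((K : ℝ) + 1)) ^ j, fun y => ?_⟩
  · unfold fjk
    exact (continuous_id.pow j).mul (cut_cont K)
  · unfold fjk
    rw [abs_mul, abs_pow, abs_of_nonneg (cut_nonneg K y)]
    by_cases h : 2 * ((K : ℝ) + 1) ≤ |y|
    · rw [cut_eq_zero h, mul_zero]
      positivity
    · push Not at h
      calc |y| ^ j * cut K y ≤ |y| ^ j * 1 := mul_le_mul_of_nonneg_left (cut_le K y) (by positivity)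
        _ = |y| ^ j := mul_one _
        _ ≤ (2 * ((K : ℝ) + 1)) ^ j := pow_le_pow_left₀ (abs_nonneg y) h.le j

/-- the mean is determined up to `ε` by a uniform approximation -/
private lemma mean_close {H : ℝ → ℝ} {c : ℝ × ℝ} {X ε : ℝ} (hX : 1 ≤ X) {φ ψ : ℝ → ℝ}
    (hφ : IntegrableOn (fun R => φ (En H c R)) (Icc X (2 * X))) (hψ : IntegrableOn (fun R => ψ (En H c R)) (Icc X (2 * X)))
    {g : ℝ → ℝ} (hg : IntegrableOn g (Icc X (2 * X))) (h : ∀ R, |φ (En H c R) - ψ (En H c R)| ≤ g R)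
    (hgi : ∫ R in Icc X (2 * X), g R ≤ ε * X) :
    |X⁻¹ * (∫ R in Icc X (2 * X), φ (En H c R)) - X⁻¹ * (∫ R in Icc X (2 * X), ψ (En H c R))| ≤ ε := by
  have hX0 : 0 < X := by linarith
  rw [← mul_sub, ← integral_sub hφ hψ, abs_mul, abs_of_pos (inv_pos.2 hX0), inv_mul_le_iff₀ hX0]
  calc |∫ R in Icc X (2 * X), (φ (En H c R) - ψ (En H c R))|
      ≤ ∫ R in Icc X (2 * X), |φ (En H c R) - ψ (En H c R)| := abs_integral_le_integral_abs
    _ ≤ ∫ R in Icc X (2 * X), g R := integral_mono (hφ.sub hψ).abs hg h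
    _ ≤ ε * X := hgi
    _ = X * ε := mul_comm _ _

theorem grow_of {H : ℝ → ℝ} (_hH : ContDiff ℝ 2 H) (_hp : Function.Periodic H (2 * π))
    (hlaw : ∀ j K : ℕ, LimF H (fjk j K))
    (hmom : ∀ J : ℕ, ∃ C : ℝ, ∀ X : ℝ, 1 ≤ X → Pool.Agent.Helper92.MM.mom J H X ≤ ENNReal.ofReal (C * X ^ (1 + J)))
    {φ : ℝ → ℝ} (hφ : Continuous φ) {A : ℝ} {q : ℕ} (hg : ∀ y, |φ y| ≤ A * (1 + |y|) ^ q) :
    LimF H φ := by
  have hA : 0 ≤ A := by
    have h := hg 0
    rw [abs_zero, add_zero, one_pow, mul_one] at h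
    exact (abs_nonneg _).trans h
  obtain ⟨C, hC⟩ := hmom (q + 1)
  -- the bound of `φ` by the moment
  have b1 : ∀ y : ℝ, (1 + |y|) ^ q ≤ 2 ^ q * (1 + |y| ^ (2 * (q + 1))) := by
    intro y
    have hp : 0 ≤ |y| ^ (2 * (q + 1)) := by positivity
    by_cases hy : |y| ≤ 1
    · calc (1 + |y|) ^ q ≤ 2 ^ q := pow_le_pow_left₀ (by positivity) (by linarith) q
        _ ≤ 2 ^ q * (1 + |y| ^ (2 * (q + 1))) := le_mul_of_one_le_right (by positivity) (by linarith)
    · push Not at hy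
      calc (1 + |y|) ^ q ≤ (2 * |y|) ^ q := pow_le_pow_left₀ (by positivity) (by linarith) q
        _ = 2 ^ q * |y| ^ q := mul_pow _ _ _
        _ ≤ 2 ^ q * |y| ^ (2 * (q + 1)) :=
          mul_le_mul_of_nonneg_left (pow_le_pow_right₀ hy.le (by omega)) (by positivity)
        _ ≤ 2 ^ q * (1 + |y| ^ (2 * (q + 1))) := mul_le_mul_of_nonneg_left (by linarith) (by positivity)
  have iφ : ∀ X : ℝ, 1 ≤ X → ∀ c : ℝ × ℝ, IntegrableOn (fun R => φ (En H c R)) (Icc X (2 * X)) := by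
    intro X hX c
    have h1 := (mom_int hX (hC X hX) c).1
    have h2 : IntegrableOn (fun R => A * (2 ^ q * (1 + |En H c R| ^ (2 * (q + 1))))) (Icc X (2 * X)) :=
      (((integrableOn_const (measure_Icc_lt_top.ne)).add h1).const_mul _).const_mul _
    refine h2.mono' ((hφ.measurable.comp (En_meas H c)).aestronglyMeasurable) (ae_of_all _ fun R => ?_)
    rw [Real.norm_eq_abs]
    exact (hg _).trans (mul_le_mul_of_nonneg_left (b1 _) hA)
  refine limF_of_approx fun ε hε => ?_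
  -- the cutoff
  obtain ⟨K, hK⟩ := exists_nat_gt (A * 2 ^ q * |C| / (ε / 2))
  have hK1 : A * 2 ^ q * |C| / ((K : ℝ) + 1) ≤ ε / 2 := by
    rw [div_le_iff₀ (by positivity)]
    rw [div_lt_iff₀ (by positivity)] at hK
    nlinarith
  set K' : ℕ := 2 * (K + 1) with hK'
  have hKK : 2 * ((K : ℝ) + 1) ≤ (K' : ℝ) + 1 := by
    rw [hK']
    push_cast
    linarith
  set ψ₀ : ℝ → ℝ := fun y => φ y * cut K y with hψ₀
  have cψ₀ : Continuous ψ₀ := hφ.mul (cut_cont K)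
  obtain ⟨P, hP⟩ := exists_polynomial_near_of_continuousOn (-(2 * ((K' : ℝ) + 1))) (2 * ((K' : ℝ) + 1)) ψ₀
    cψ₀.continuousOn (ε / 2) (by positivity)
  set ψ : ℝ → ℝ := fun y => ∑ j ∈ Finset.range (P.natDegree + 1), P.coeff j * fjk j K' y with hψ
  have gψ : Good H ψ := Good.sum _ _ _ fun j => fjk_good hlaw j K'
  have eψ : ∀ y, ψ y = P.eval y * cut K' y := by
    intro y
    rw [hψ, Polynomial.eval_eq_sum_range, Finset.sum_mul]
    refine Finset.sum_congr rfl fun j _ => ?_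
    unfold fjk
    ring
  have close : ∀ y, |ψ₀ y - ψ y| ≤ ε / 2 := by
    intro y
    rw [eψ]
    by_cases hy : 2 * ((K' : ℝ) + 1) ≤ |y|
    · have hKp : (0 : ℝ) ≤ (K' : ℝ) + 1 := by positivity
      have h1 : ψ₀ y = 0 := by
        rw [hψ₀]
        simp only
        rw [cut_eq_zero (K := K) (by linarith), mul_zero]
      rw [h1, cut_eq_zero hy]
      simp only [mul_zero, sub_zero, abs_zero]
      positivity
    · push Not at hy
      have h1 : ψ₀ y = ψ₀ y * cut K' y := by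
        by_cases hy' : |y| ≤ (K' : ℝ) + 1
        · rw [cut_eq_one hy', mul_one]
        · push Not at hy'
          have h2 : ψ₀ y = 0 := by
            rw [hψ₀]
            simp only
            rw [cut_eq_zero (K := K) (by linarith), mul_zero]
          rw [h2, zero_mul]
      rw [h1, ← sub_mul, abs_mul, abs_of_nonneg (cut_nonneg K' y)]
      have h3 := hP y ⟨by linarith [neg_abs_le y], by linarith [le_abs_self y]⟩
      rw [abs_sub_comm] at h3
      calc |ψ₀ y - P.eval y| * cut K' y ≤ |ψ₀ y - P.eval y| * 1 :=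
            mul_le_mul_of_nonneg_left (cut_le K' y) (abs_nonneg _)
        _ ≤ ε / 2 := by rw [mul_one]; exact h3.le
  refine ⟨ψ, gψ.1, fun X hX c => ?_⟩
  have hX0 : 0 < X := by linarith
  obtain ⟨m1, m2⟩ := mom_int hX (hC X hX) c
  obtain ⟨-, cψ, B, bψ⟩ := gψ
  have iψ := int_bdd (H := H) (c := c) (X := X) cψ bψ
  refine mean_close (g := fun R => A * 2 ^ q / ((K : ℝ) + 1) * |En H c R| ^ (2 * (q + 1)) + ε / 2) hX (iφ X hX c) iψ
    ((m1.const_mul _).add (integrableOn_const (measure_Icc_lt_top.ne))) (fun R => ?_) ?_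
  · -- the tail
    set y := En H c R
    have t1 : |φ y - ψ₀ y| ≤ A * 2 ^ q / ((K : ℝ) + 1) * |y| ^ (2 * (q + 1)) := by
      by_cases hy : |y| ≤ (K : ℝ) + 1
      · have : φ y - ψ₀ y = 0 := by
          rw [hψ₀]
          simp only
          rw [cut_eq_one hy]
          ring
        rw [this, abs_zero]
        positivity
      · push Not at hy
        have hK0 : (1 : ℝ) ≤ (K : ℝ) + 1 := by linarith [(Nat.cast_nonneg K : (0 : ℝ) ≤ K)]
        have hy1 : 1 ≤ |y| := by linarith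
        have e1 : φ y - ψ₀ y = φ y * (1 - cut K y) := by
          rw [hψ₀]
          ring
        rw [e1, abs_mul, abs_of_nonneg (by linarith [cut_le K y] : 0 ≤ 1 - cut K y)]
        have e2 : |φ y| * (1 - cut K y) ≤ |φ y| := by
          nlinarith [abs_nonneg (φ y), cut_nonneg K y]
        have e3 : (1 + |y|) ^ q ≤ 2 ^ q * |y| ^ q := by
          rw [← mul_pow]
          exact pow_le_pow_left₀ (by positivity) (by linarith) q
        have e4 : |y| ^ q * ((K : ℝ) + 1) ≤ |y| ^ (2 * (q + 1)) := by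
          have : |y| ^ (2 * (q + 1)) = |y| ^ q * |y| ^ (q + 2) := by rw [← pow_add]; congr 1; ring
          rw [this]
          refine mul_le_mul_of_nonneg_left ?_ (by positivity)
          calc (K : ℝ) + 1 ≤ |y| := hy.le
            _ = |y| ^ 1 := (pow_one _).symm
            _ ≤ |y| ^ (q + 2) := pow_le_pow_right₀ hy1 (by omega)
        calc |φ y| * (1 - cut K y) ≤ |φ y| := e2
          _ ≤ A * (1 + |y|) ^ q := hg y
          _ ≤ A * (2 ^ q * |y| ^ q) := mul_le_mul_of_nonneg_left e3 hA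
          _ = A * 2 ^ q / ((K : ℝ) + 1) * (|y| ^ q * ((K : ℝ) + 1)) := by field_simp
          _ ≤ A * 2 ^ q / ((K : ℝ) + 1) * |y| ^ (2 * (q + 1)) := mul_le_mul_of_nonneg_left e4 (by positivity)
    have t2 : φ y - ψ y = (φ y - ψ₀ y) + (ψ₀ y - ψ y) := by ring
    rw [t2]
    exact (abs_add_le _ _).trans (add_le_add t1 (close y))
  · have e1 : ∫ R in Icc X (2 * X), (A * 2 ^ q / ((K : ℝ) + 1) * |En H c R| ^ (2 * (q + 1)) + ε / 2) =
        A * 2 ^ q / ((K : ℝ) + 1) * (∫ R in Icc X (2 * X), |En H c R| ^ (2 * (q + 1))) + X * (ε / 2) := by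
      rw [integral_add (m1.const_mul _) (integrableOn_const (measure_Icc_lt_top.ne)), integral_const_mul, setIntegral_const]
      congr 1
      rw [Measure.real, Real.volume_Icc, ENNReal.toReal_ofReal (by linarith), smul_eq_mul]
      ring
    rw [e1]
    have e2 : A * 2 ^ q / ((K : ℝ) + 1) * (∫ R in Icc X (2 * X), |En H c R| ^ (2 * (q + 1))) ≤
        A * 2 ^ q / ((K : ℝ) + 1) * (|C| * X) := mul_le_mul_of_nonneg_left m2 (by positivity)
    have e3 : A * 2 ^ q / ((K : ℝ) + 1) * (|C| * X) = A * 2 ^ q * |C| / ((K : ℝ) + 1) * X := by ring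
    have e4 : A * 2 ^ q * |C| / ((K : ℝ) + 1) * X ≤ ε / 2 * X := mul_le_mul_of_nonneg_right hK1 hX0.le
    linarith

end Pool.Agent.Helper77.LW
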